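import Pool.Agent.W259.GP.Defs

/-!
# GP-AVG: the energy along the chain

Midpoint Riemann sums and the integral of the energy of one mode.
-/

open MeasureTheory Finset Filter
open scoped Topology

namespace Pool.Agent.W578.GP

open Pool.Agent.W259.GP

/-- Midpoint Riemann sums of a continuous function. -/
theorem tendsto_midpoint (H : ℝ → ℝ) (hH : Continuous H) :
    Tendsto (fun n : ℕ => ∑ j : Fin (n + 1), 1 / ((n : ℝ) + 1) *
      H ((2 * (j : ℝ) + 1) / (2 * ((n : ℝ) + 1)))) atTop (𝓝 (∫ x in (0:ℝ)..1, H x)) := by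
  rw [Metric.tendsto_atTop]
  intro ε hε
  have huc : UniformContinuousOn H (Set.Icc (0:ℝ) 1) :=
    isCompact_Icc.uniformContinuousOn_of_continuous hH.continuousOn
  rw [Metric.uniformContinuousOn_iff] at huc
  obtain ⟨δ, hδ, hd⟩ := huc (ε / 2) (by positivity)
  obtain ⟨M, hM⟩ := exists_nat_gt (1 / δ)
  refine ⟨M, fun n hn => ?_⟩
  have hn0 : (0 : ℝ) < (n : ℝ) + 1 := by positivity
  have hnδ : 1 / ((n : ℝ) + 1) < δ := by
    rw [div_lt_iff₀ hn0]
    rw [div_lt_iff₀ hδ] at hM
    have : (M : ℝ) ≤ n := by exact_mod_cast hn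
    nlinarith
  set a : ℕ → ℝ := fun j => (j : ℝ) / ((n : ℝ) + 1) with ha
  have hsum : ∑ j ∈ range (n + 1), ∫ x in a j..a (j + 1), H x = ∫ x in (0:ℝ)..1, H x := by
    rw [intervalIntegral.sum_integral_adjacent_intervals
      (fun k _ => hH.intervalIntegrable _ _)]
    have h0 : a 0 = 0 := by simp [ha]
    have h1 : a (n + 1) = 1 := by
      simp only [ha]; push_cast; exact div_self hn0.ne'
    rw [h0, h1]
  rw [← hsum, Real.dist_eq, Fin.sum_univ_eq_sum_range
    (fun j : ℕ => 1 / ((n : ℝ) + 1) * H ((2 * (j : ℝ) + 1) / (2 * ((n : ℝ) + 1)))) (n + 1),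
    ← Finset.sum_sub_distrib]
  have hterm : ∀ j ∈ range (n + 1),
      |1 / ((n : ℝ) + 1) * H ((2 * (j : ℝ) + 1) / (2 * ((n : ℝ) + 1)))
        - ∫ x in a j..a (j + 1), H x| ≤ ε / 2 * (1 / ((n : ℝ) + 1)) := by
    intro j hj
    have hj' : (j : ℝ) + 1 ≤ (n : ℝ) + 1 := by
      have := Finset.mem_range.1 hj
      exact_mod_cast this
    have hlen : a (j + 1) - a j = 1 / ((n : ℝ) + 1) := by
      simp only [ha]; push_cast; ring
    have hle : a j ≤ a (j + 1) := by
      have : 0 < a (j + 1) - a j := by rw [hlen]; positivity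
      linarith
    set p : ℝ := (2 * (j : ℝ) + 1) / (2 * ((n : ℝ) + 1)) with hp
    have hconst : 1 / ((n : ℝ) + 1) * H p = ∫ x in a j..a (j + 1), H p := by
      rw [intervalIntegral.integral_const, hlen, smul_eq_mul]
    rw [hconst, ← intervalIntegral.integral_sub (intervalIntegrable_const)
      (hH.intervalIntegrable _ _), ← Real.norm_eq_abs]
    have hp1 : a j ≤ p := by
      simp only [ha, hp]
      rw [div_le_div_iff₀ hn0 (by positivity)]
      nlinarith
    have hp2 : p ≤ a (j + 1) := by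
      simp only [ha, hp]
      push_cast
      rw [div_le_div_iff₀ (by positivity) hn0]
      nlinarith
    have ha0 : 0 ≤ a j := by simp only [ha]; positivity
    have ha1 : a (j + 1) ≤ 1 := by
      simp only [ha]; push_cast
      rw [div_le_one hn0]; exact hj'
    have hb : ∀ x ∈ Set.uIoc (a j) (a (j + 1)), ‖H p - H x‖ ≤ ε / 2 := by
      intro x hx
      rw [Set.uIoc_of_le hle] at hx
      have hx1 := hx.1
      have hx2 := hx.2
      have := hd p ⟨by linarith, by linarith⟩ x ⟨by linarith, by linarith⟩ (by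
        rw [Real.dist_eq, abs_lt]
        constructor <;> linarith)
      rw [Real.dist_eq] at this
      rw [Real.norm_eq_abs]
      exact this.le
    refine (intervalIntegral.norm_integral_le_of_norm_le_const hb).trans ?_
    rw [hlen, abs_of_pos (by positivity)]
  refine lt_of_le_of_lt (Finset.abs_sum_le_sum_abs _ _) ?_
  refine lt_of_le_of_lt (Finset.sum_le_sum hterm) ?_
  rw [Finset.sum_const, Finset.card_range, nsmul_eq_mul]
  push_cast
  have : ((n : ℝ) + 1) * (ε / 2 * (1 / ((n : ℝ) + 1))) = ε / 2 := by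
    field_simp
  rw [this]
  linarith

/-- The derivative of the antiderivative. -/
theorem hasDerivAt_arc (A φ : ℝ) :
    HasDerivAt (fun φ => φ + Real.arctan (A * Real.cos φ / √(1 + A ^ 2 * Real.sin φ ^ 2)))
      (1 - A * Real.sin φ / √(1 + A ^ 2 * Real.sin φ ^ 2)) φ := by
  have hpos : 0 < 1 + A ^ 2 * Real.sin φ ^ 2 := by positivity
  have hD : 0 < √(1 + A ^ 2 * Real.sin φ ^ 2) := Real.sqrt_pos.2 hpos
  have hsq : √(1 + A ^ 2 * Real.sin φ ^ 2) ^ 2 = 1 + A ^ 2 * Real.sin φ ^ 2 :=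
    Real.sq_sqrt hpos.le
  have h1 : HasDerivAt (fun φ : ℝ => 1 + A ^ 2 * Real.sin φ ^ 2)
      (A ^ 2 * (2 * Real.sin φ * Real.cos φ)) φ := by
    have := (((Real.hasDerivAt_sin φ).pow 2).const_mul (A ^ 2)).const_add 1
    simpa using this
  have h2 := h1.sqrt hpos.ne'
  have h3 : HasDerivAt (fun φ : ℝ => A * Real.cos φ) (A * (-Real.sin φ)) φ :=
    (Real.hasDerivAt_cos φ).const_mul A
  have h4 := ((h3.div h2 hD.ne').arctan).const_add 0
  have h5 := (hasDerivAt_id φ).add (h3.div h2 hD.ne').arctan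
  refine h5.congr_deriv ?_
  simp only [Pi.div_apply]
  set D := √(1 + A ^ 2 * Real.sin φ ^ 2) with hDdef
  have hc : Real.cos φ ^ 2 = 1 - Real.sin φ ^ 2 := by
    have := Real.sin_sq_add_cos_sq φ; linarith
  have h6 : 1 + (A * Real.cos φ / D) ^ 2 = (1 + A ^ 2) / D ^ 2 := by
    rw [div_pow, mul_pow, hc]
    field_simp
    rw [hsq]; ring
  rw [h6]
  have hA : 0 < 1 + A ^ 2 := by positivity
  have h7 : A * -Real.sin φ * D - A * Real.cos φ * (A ^ 2 * (2 * Real.sin φ * Real.cos φ) / (2 * D))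
      = -(A * Real.sin φ) * (1 + A ^ 2) / D := by
    field_simp
    have : D ^ 2 + A ^ 2 * Real.cos φ ^ 2 = 1 + A ^ 2 := by rw [hsq, hc]; ring
    linear_combination (-(A * Real.sin φ)) * this
  rw [h7]
  field_simp
  ring

/-- the energy of one mode as a function of the angle -/
noncomputable def HH (c x : ℝ) : ℝ := eC (c * (2 - 2 * Real.cos (Real.pi * x)))

theorem HH_cont (c : ℝ) (hc : 0 < c) : Continuous (HH c) := by
  unfold HH eC
  have hnn : ∀ x : ℝ, 0 ≤ 2 - 2 * Real.cos (Real.pi * x) := fun x => by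
    have := Real.cos_le_one (Real.pi * x); linarith
  refine continuous_const.sub (Real.continuous_sqrt.comp (Continuous.div ?_ ?_ ?_))
  · fun_prop
  · fun_prop
  · intro x
    have := hnn x
    positivity

theorem HH_eq (c : ℝ) (hc : 0 < c) (x : ℝ) (hx0 : 0 ≤ x) (hx1 : x ≤ 1) :
    HH c x = 1 - √(8 * c) * Real.sin (Real.pi / 2 * x) /
      √(1 + √(8 * c) ^ 2 * Real.sin (Real.pi / 2 * x) ^ 2) := by
  have hs : 0 ≤ Real.sin (Real.pi / 2 * x) := by
    apply Real.sin_nonneg_of_nonneg_of_le_pi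
    · have := Real.pi_pos; positivity
    · have := Real.pi_pos; nlinarith
  have h8 : √(8 * c) ^ 2 = 8 * c := Real.sq_sqrt (by positivity)
  have hcos : c * (2 - 2 * Real.cos (Real.pi * x)) = 4 * c * Real.sin (Real.pi / 2 * x) ^ 2 := by
    have : Real.pi * x = 2 * (Real.pi / 2 * x) := by ring
    rw [this, Real.cos_two_mul, Real.cos_sq']
    ring
  unfold HH eC
  rw [hcos, h8]
  congr 1
  have e1 : 2 * (4 * c * Real.sin (Real.pi / 2 * x) ^ 2) = (√(8 * c) * Real.sin (Real.pi / 2 * x)) ^ 2 := by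
    rw [mul_pow, h8]; ring
  have e2 : 1 + 2 * (4 * c * Real.sin (Real.pi / 2 * x) ^ 2) = 1 + 8 * c * Real.sin (Real.pi / 2 * x) ^ 2 := by
    ring
  rw [e2, Real.sqrt_div (by positivity), e1, Real.sqrt_sq (by positivity)]

theorem integral_HH (c : ℝ) (hc : 0 < c) :
    ∫ x in (0:ℝ)..1, HH c x = 2 / Real.pi * Real.arctan (1 / √(8 * c)) := by
  have hpi := Real.pi_pos
  set A := √(8 * c) with hA
  have hApos : 0 < A := Real.sqrt_pos.2 (by positivity)
  set F : ℝ → ℝ := fun φ => φ + Real.arctan (A * Real.cos φ / √(1 + A ^ 2 * Real.sin φ ^ 2)) with hF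
  have hder : ∀ x ∈ Set.uIcc (0:ℝ) 1,
      HasDerivAt (fun x => 2 / Real.pi * F (Real.pi / 2 * x)) (HH c x) x := by
    intro x hx
    rw [Set.uIcc_of_le zero_le_one] at hx
    have h1 := hasDerivAt_arc A (Real.pi / 2 * x)
    have h2 : HasDerivAt (fun x : ℝ => Real.pi / 2 * x) (Real.pi / 2) x := by
      simpa using (hasDerivAt_id x).const_mul (Real.pi / 2)
    have h3 := (h1.comp x h2).const_mul (2 / Real.pi)
    refine h3.congr_deriv ?_
    rw [HH_eq c hc x hx.1 hx.2, ← hA]
    have e0 : ∀ y : ℝ, 2 / Real.pi * (y * (Real.pi / 2)) = y := fun y => by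
      field_simp
    exact e0 _
  rw [intervalIntegral.integral_eq_sub_of_hasDerivAt hder
    ((HH_cont c hc).intervalIntegrable _ _)]
  simp only [hF]
  have e1 : Real.pi / 2 * 1 = Real.pi / 2 := mul_one _
  have e3 : Real.pi / 2 * 0 = 0 := mul_zero _
  rw [e1, e3, Real.cos_pi_div_two, Real.sin_pi_div_two, Real.cos_zero, Real.sin_zero,
    mul_zero, zero_div, Real.arctan_zero]
  have e2 : √(1 + A ^ 2 * 0 ^ 2) = 1 := by
    norm_num
  rw [e2, mul_one, div_one, one_div, Real.arctan_inv_of_pos hApos]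
  ring

/-- **GP-AVG.** -/
theorem avg : S_avg := by
  intro c hc
  have h := tendsto_midpoint (HH c) (HH_cont c hc)
  rw [integral_HH c hc] at h
  refine h.congr fun n => ?_
  refine Finset.sum_congr rfl fun j _ => ?_
  unfold HH cA
  congr 4
  ring_nf

end Pool.Agent.W578.GP
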