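import Pool.Agent.W911.GP.Stms

/-!
# The automaton runs in polynomial time
-/

set_option autoImplicit false

namespace Pool.Agent.W578.GP

open Pool.Agent.NPC Pool.Agent.H622R2 Pool.Agent.H620R2.Gauge
open Pool.Agent.H591R3.PHG Pool.Agent.W911.GP
open Pool.Agent.W911.AL (sz_le_pow)

/-- the body of the step of the automaton, for a nonempty stack -/
def body (t : ℕ) (σ : St) (b : Bool) (fr : Fr) (rest : List Fr) : St :=
    if fr.2.2.2.2 = [] ∧ b = false then (σ.1, σ.2.1, rest, σ.2.2.2)
    else if fr.2.2.2.1 = 0 then (false, σ.2)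
    else if (fr.2.2.2.2 ++ [b]).length = fr.1.headD 0 + 1 then
      if valB (fr.2.2.2.2 ++ [b]).tail < fr.2.2.1 then (false, σ.2)
      else (σ.1, !σ.2.1,
        (if fr.1.tail = [] then [] else
          [(fr.1.tail, fr.2.1 ++ (fr.2.2.2.2 ++ [b]).tail, 0, t, [])]) ++
          (fr.1, fr.2.1, valB (fr.2.2.2.2 ++ [b]).tail + 1, fr.2.2.2.1 - 1, []) :: rest,
        (if fr.1.tail = [] then [fr.2.1 ++ (fr.2.2.2.2 ++ [b]).tail] else []) ++ σ.2.2.2)
    else (σ.1, σ.2.1, (fr.1, fr.2.1, fr.2.2.1, fr.2.2.2.1, fr.2.2.2.2 ++ [b]) :: rest, σ.2.2.2)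

theorem fstep_eq (t : ℕ) (σ : St) (b : Bool) :
    fstep t σ b = match σ.2.2.1 with
      | [] => (σ.1 && !b, σ.2)
      | fr :: rest => body t σ b fr rest := rfl

section
variable {α : Type} [TEnc α] {t : α → ℕ} {σ : α → St} {b : α → Bool} {fr : α → Fr}
  {rest : α → List Fr}

theorem poly_body (ht : Poly t) (hσ : Poly σ) (hb : Poly b) (hfr : Poly fr) (hrest : Poly rest) :
    Poly (fun a => body (t a) (σ a) (b a) (fr a) (rest a)) := by
  have h1 : Poly (fun a => (fr a).1) := Poly.fst hfr
  have hq : Poly (fun a => (fr a).2.1) := Poly.fst (Poly.snd hfr)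
  have hlo : Poly (fun a => (fr a).2.2.1) := Poly.fst (Poly.snd (Poly.snd hfr))
  have hf : Poly (fun a => (fr a).2.2.2.1) := Poly.fst (Poly.snd (Poly.snd (Poly.snd hfr)))
  have hp : Poly (fun a => (fr a).2.2.2.2) := Poly.snd (Poly.snd (Poly.snd (Poly.snd hfr)))
  have hp' : Poly (fun a => (fr a).2.2.2.2 ++ [b a]) :=
    Poly.append hp (Poly.cons hb (NPC.Poly.const []))
  have hpt : Poly (fun a => ((fr a).2.2.2.2 ++ [b a]).tail) := Poly.tail hp'
  have hv : Poly (fun a => valB ((fr a).2.2.2.2 ++ [b a]).tail) := Poly.valBits hpt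
  have hh : Poly (fun a => (fr a).1.headD 0) :=
    (Poly.head?_getD h1 0).congr fun a => by cases (fr a).1 <;> rfl
  have htl : Poly (fun a => (fr a).1.tail) := Poly.tail h1
  have s1 : Poly (fun a => (σ a).1) := Poly.fst hσ
  have s2 : Poly (fun a => (σ a).2) := Poly.snd hσ
  have s21 : Poly (fun a => (σ a).2.1) := Poly.fst s2
  have s222 : Poly (fun a => (σ a).2.2.2) := Poly.snd (Poly.snd s2)
  have hdead : Poly (fun a => ((false, (σ a).2) : St)) := Poly.pair (NPC.Poly.const false) s2
  have hqp : Poly (fun a => (fr a).2.1 ++ ((fr a).2.2.2.2 ++ [b a]).tail) := Poly.append hq hpt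
  have htlnil : Poly (fun a => decide ((fr a).1.tail = [])) :=
    Poly.decide_eq htl (NPC.Poly.const [])
  unfold body
  refine Poly.ite (Poly.decide_and (Poly.decide_eq hp (NPC.Poly.const []))
    (Poly.decide_eq hb (NPC.Poly.const false))) ?_ ?_
  · exact Poly.pair s1 (Poly.pair s21 (Poly.pair hrest s222))
  refine Poly.ite (Poly.decide_eq hf (NPC.Poly.const 0)) hdead ?_
  refine Poly.ite (Poly.decide_eq (Poly.length hp') (Poly.succ hh)) ?_ ?_
  · refine Poly.ite (Poly.decide_lt hv hlo) hdead ?_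
    refine Poly.pair s1 (Poly.pair (Poly.not s21) (Poly.pair ?_ ?_))
    · refine Poly.append (Poly.ite htlnil (NPC.Poly.const []) ?_) (Poly.cons ?_ hrest)
      · exact Poly.cons (Poly.pair htl (Poly.pair hqp (Poly.pair (NPC.Poly.const 0)
          (Poly.pair ht (NPC.Poly.const []))))) (NPC.Poly.const [])
      · exact Poly.pair h1 (Poly.pair hq (Poly.pair (Poly.succ hv)
          (Poly.pair (Poly.sub hf (NPC.Poly.const 1)) (NPC.Poly.const []))))
    · exact Poly.append (Poly.ite htlnil (Poly.cons hqp (NPC.Poly.const [])) (NPC.Poly.const []))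
        s222
  · exact Poly.pair s1 (Poly.pair s21 (Poly.pair (Poly.cons (Poly.pair h1 (Poly.pair hq
      (Poly.pair hlo (Poly.pair hf hp')))) hrest) s222))

theorem poly_fstep (ht : Poly t) (hσ : Poly σ) (hb : Poly b) :
    Poly (fun a => fstep (t a) (σ a) (b a)) := by
  have hst : Poly (fun a => (σ a).2.2.1) := Poly.fst (Poly.snd (Poly.snd hσ))
  have hg : Poly (fun a => (((σ a).1 && !(b a), (σ a).2) : St)) :=
    Poly.pair (Poly.and (Poly.fst hσ) (Poly.not hb)) (Poly.snd hσ)
  have hh : Poly (fun p : α × Fr × List Fr => body (t p.1) (σ p.1) (b p.1) p.2.1 p.2.2) :=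
    poly_body (ht.comp (Poly.fst Poly.id)) (hσ.comp (Poly.fst Poly.id))
      (hb.comp (Poly.fst Poly.id)) (Poly.fst (Poly.snd Poly.id)) (Poly.snd (Poly.snd Poly.id))
  refine (Poly.listCases (h := fun a fr rest => body (t a) (σ a) (b a) fr rest) hst hg hh).congr
    fun a => ?_
  rw [fstep_eq]
  cases (σ a).2.2.1 <;> rfl

end

/-- the invariant of the automaton -/
def Inv (R X t k : ℕ) (σ : St) : Prop :=
  σ.2.2.1.length ≤ k + 1 ∧ σ.2.2.2.length ≤ k ∧
  (∀ fr ∈ σ.2.2.1, sz fr.1 ≤ R ∧ fr.2.1.length + fr.2.2.2.2.length ≤ X + k ∧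
    fr.2.2.1 ≤ 2 ^ k ∧ fr.2.2.2.1 ≤ t ∧ fr.2.2.2.2.length ≤ k) ∧
  ∀ q ∈ σ.2.2.2, q.length ≤ X + k

theorem inv_mono {R X t k : ℕ} {σ σ' : St} (h : Inv R X t k σ)
    (h1 : ∀ fr ∈ σ'.2.2.1, fr ∈ σ.2.2.1) (h1' : σ'.2.2.1.length ≤ σ.2.2.1.length)
    (h2 : σ'.2.2.2 = σ.2.2.2) : Inv R X t (k + 1) σ' := by
  obtain ⟨a1, a2, a3, a4⟩ := h
  have hpow : 2 ^ k ≤ 2 ^ (k + 1) := Nat.pow_le_pow_right (by norm_num) (by omega)
  refine ⟨by omega, by rw [h2]; omega, fun fr hfr => ?_, fun q hq => ?_⟩
  · obtain ⟨b1, b2, b3, b4, b5⟩ := a3 fr (h1 fr hfr)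
    exact ⟨b1, by omega, b3.trans hpow, b4, by omega⟩
  · rw [h2] at hq
    have := a4 q hq
    omega

theorem inv_step {R X t k : ℕ} {σ : St} (h : Inv R X t k σ) (b : Bool) :
    Inv R X t (k + 1) (fstep t σ b) := by
  rw [fstep_eq]
  obtain ⟨σ1, σ2, st, lv⟩ := σ
  cases st with
  | nil => exact inv_mono h (fun fr hfr => hfr) le_rfl rfl
  | cons fr rest =>
    simp only
    have hdead : Inv R X t (k + 1) ((false, σ2, fr :: rest, lv) : St) :=
      inv_mono h (fun fr hfr => hfr) le_rfl rfl
    have hpow : 2 ^ k ≤ 2 ^ (k + 1) := Nat.pow_le_pow_right (by norm_num) (by omega)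
    unfold body
    simp only
    split_ifs with c1 c2 c3 c4 c5
    · exact inv_mono h (fun fr' hfr => List.mem_cons_of_mem _ hfr) (by simp) rfl
    · exact hdead
    · exact hdead
    · -- the leaf case
      obtain ⟨a1, a2, a3, a4⟩ := h
      simp only at a1 a2 a3 a4
      obtain ⟨b1, b2, b3, b4, b5⟩ := a3 fr (List.mem_cons_self ..)
      have hlen : (fr.2.2.2.2 ++ [b]).tail.length = fr.2.2.2.2.length := by simp
      have hval : valB (fr.2.2.2.2 ++ [b]).tail + 1 ≤ 2 ^ k := by
        have h1 := valB_lt (fr.2.2.2.2 ++ [b]).tail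
        rw [hlen] at h1
        have h2 : 2 ^ fr.2.2.2.2.length ≤ 2 ^ k := Nat.pow_le_pow_right (by norm_num) b5
        omega
      refine ⟨?_, ?_, ?_, ?_⟩
      · simp only [List.nil_append, List.length_cons] at a1 ⊢
        omega
      · simp only [List.length_append, List.length_singleton]
        omega
      · intro f' hf'
        simp only [List.nil_append] at hf'
        rcases List.mem_cons.1 hf' with rfl | hf'
        · refine ⟨b1, ?_, hval.trans hpow, ?_, ?_⟩
          · simp only [List.length_nil]; omega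
          · simp only; omega
          · simp
        · obtain ⟨d1, d2, d3, d4, d5⟩ := a3 f' (List.mem_cons_of_mem _ hf')
          exact ⟨d1, by omega, d3.trans hpow, d4, by omega⟩
      · intro q hq
        rcases List.mem_append.1 hq with hq | hq
        · rw [List.mem_singleton] at hq
          subst hq
          rw [List.length_append, hlen]
          omega
        · have := a4 q hq
          omega
    · -- the inner case
      obtain ⟨a1, a2, a3, a4⟩ := h
      simp only at a1 a2 a3 a4
      obtain ⟨b1, b2, b3, b4, b5⟩ := a3 fr (List.mem_cons_self ..)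
      have hlen : (fr.2.2.2.2 ++ [b]).tail.length = fr.2.2.2.2.length := by simp
      have hval : valB (fr.2.2.2.2 ++ [b]).tail + 1 ≤ 2 ^ k := by
        have h1 := valB_lt (fr.2.2.2.2 ++ [b]).tail
        rw [hlen] at h1
        have h2 : 2 ^ fr.2.2.2.2.length ≤ 2 ^ k := Nat.pow_le_pow_right (by norm_num) b5
        omega
      refine ⟨?_, ?_, ?_, ?_⟩
      · simp only [List.singleton_append, List.length_cons] at a1 ⊢
        omega
      · simp only [List.nil_append]
        omega
      · intro f' hf'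
        simp only [List.singleton_append] at hf'
        rcases List.mem_cons.1 hf' with rfl | hf'
        · refine ⟨?_, ?_, ?_, le_rfl, ?_⟩
          · have h3 : sz (fr.1.drop 1) ≤ sz fr.1 := NPC.Poly.sz_drop_le _ _
            rw [List.drop_one] at h3
            exact h3.trans b1
          · simp only [List.length_append, hlen, List.length_nil]
            omega
          · simp
          · simp
        rcases List.mem_cons.1 hf' with rfl | hf'
        · refine ⟨b1, ?_, hval.trans hpow, ?_, ?_⟩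
          · simp only [List.length_nil]; omega
          · simp only; omega
          · simp
        · obtain ⟨d1, d2, d3, d4, d5⟩ := a3 f' (List.mem_cons_of_mem _ hf')
          exact ⟨d1, by omega, d3.trans hpow, d4, by omega⟩
      · intro q hq
        simp only [List.nil_append] at hq
        have := a4 q hq
        omega
    · -- one more bit
      obtain ⟨a1, a2, a3, a4⟩ := h
      simp only at a1 a2 a3 a4
      obtain ⟨b1, b2, b3, b4, b5⟩ := a3 fr (List.mem_cons_self ..)
      refine ⟨?_, ?_, ?_, ?_⟩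
      · simp only [List.length_cons] at a1 ⊢
        omega
      · simp only
        omega
      · intro f' hf'
        rcases List.mem_cons.1 hf' with rfl | hf'
        · refine ⟨b1, ?_, b3.trans hpow, b4, ?_⟩
          · simp only [List.length_append, List.length_singleton]
            omega
          · simp only [List.length_append, List.length_singleton]
            omega
        · obtain ⟨d1, d2, d3, d4, d5⟩ := a3 f' (List.mem_cons_of_mem _ hf')
          exact ⟨d1, by omega, d3.trans hpow, d4, by omega⟩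
      · intro q hq
        have := a4 q hq
        omega

theorem inv_fold {R X t : ℕ} : ∀ (w : List Bool) (k : ℕ) (σ : St), Inv R X t k σ →
    Inv R X t (k + w.length) (w.foldl (fstep t) σ) := by
  intro w
  induction w with
  | nil => intro k σ h; exact h
  | cons b w ih =>
    intro k σ h
    rw [List.foldl_cons, List.length_cons]
    have := ih (k + 1) _ (inv_step h b)
    have e : k + 1 + w.length = k + (w.length + 1) := by omega
    rw [e] at this
    exact this

/-- the size of a state -/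
theorem sz_inv {R X t k : ℕ} {σ : St} (h : Inv R X t k σ) :
    sz σ ≤ (k + 1) * (R + (4 * (X + k) + 1) + (4 * (k + 1) + 1) + 2 * sz t + (4 * k + 1) + 5) +
      k * (4 * (X + k) + 2) + 12 := by
  obtain ⟨σ1, σ2, st, lv⟩ := σ
  obtain ⟨a1, a2, a3, a4⟩ := h
  simp only at a1 a2 a3 a4
  have e1 := sz_bool_le σ1
  have e2 := sz_bool_le σ2
  have e3 : sz st ≤ st.length *
      ((R + (4 * (X + k) + 1) + (4 * (k + 1) + 1) + 2 * sz t + (4 * k + 1) + 4) + 1) + 1 := by
    refine sz_le_length_mul _ _ fun fr hfr => ?_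
    obtain ⟨r, q, lo, f, p⟩ := fr
    obtain ⟨b1, b2, b3, b4, b5⟩ := a3 _ hfr
    simp only at b1 b2 b3 b4 b5
    have c1 := sz_listBool_le q
    have c2 := sz_le_pow b3
    have c3 := sz_nat_mono_le b4
    have c4 := sz_listBool_le p
    simp only [sz_pair]
    omega
  have e4 : sz lv ≤ lv.length * ((4 * (X + k) + 1) + 1) + 1 := by
    refine sz_le_length_mul _ _ fun q hq => ?_
    have c1 := sz_listBool_le q
    have c2 := a4 q hq
    omega
  have e5 : st.length *
      ((R + (4 * (X + k) + 1) + (4 * (k + 1) + 1) + 2 * sz t + (4 * k + 1) + 4) + 1) ≤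
      (k + 1) *
      ((R + (4 * (X + k) + 1) + (4 * (k + 1) + 1) + 2 * sz t + (4 * k + 1) + 4) + 1) :=
    Nat.mul_le_mul_right _ a1
  have e6 : lv.length * ((4 * (X + k) + 1) + 1) ≤ k * ((4 * (X + k) + 1) + 1) :=
    Nat.mul_le_mul_right _ a2
  simp only [sz_pair]
  have e7 : (R + (4 * (X + k) + 1) + (4 * (k + 1) + 1) + 2 * sz t + (4 * k + 1) + 4) + 1 =
    R + (4 * (X + k) + 1) + (4 * (k + 1) + 1) + 2 * sz t + (4 * k + 1) + 5 := by omega
  have e8 : (4 * (X + k) + 1) + 1 = 4 * (X + k) + 2 := by omega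
  rw [e7] at e3 e5
  rw [e8] at e4 e6
  omega

theorem poly : Pool.Agent.W911.GP.S_POLY := by
  intro α _ t R x w ht hR hx hw
  have htP : Poly t := ht.toPoly
  obtain ⟨qt, hqt⟩ := htP.sz_le
  obtain ⟨qR, hqR⟩ := hR.sz_le
  obtain ⟨qx, hqx⟩ := hx.sz_le
  obtain ⟨qw, hqw⟩ := hw.sz_le
  have hstep : Poly (fun p : α × St × Bool => fstep (t p.1) p.2.1 p.2.2) :=
    poly_fstep (htP.comp (Poly.fst Poly.id)) (Poly.fst (Poly.snd Poly.id))
      (Poly.snd (Poly.snd Poly.id))
  have hs : Poly (fun a => ((true, false, [(R a, x a, 0, t a, [])], []) : St)) :=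
    Poly.pair (NPC.Poly.const true) (Poly.pair (NPC.Poly.const false) (Poly.pair
      (Poly.cons (Poly.pair hR (Poly.pair hx (Poly.pair (NPC.Poly.const 0)
        (Poly.pair htP (NPC.Poly.const []))))) (NPC.Poly.const [])) (NPC.Poly.const [])))
  refine Poly.foldl (F := fun a => fstep (t a)) hw hs hstep
    ((qw + 1) * (qR + (Polynomial.C 4 * (qx + qw) + 1) + (Polynomial.C 4 * (qw + 1) + 1) +
      Polynomial.C 2 * qt + (Polynomial.C 4 * qw + 1) + Polynomial.C 5) +
      qw * (Polynomial.C 4 * (qx + qw) + Polynomial.C 2) + Polynomial.C 12) ?_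
  intro a k hk
  have hinit : Inv (sz (R a)) (x a).length (t a) 0
      ((true, false, [(R a, x a, 0, t a, [])], []) : St) := by
    refine ⟨by simp, by simp, ?_, by simp⟩
    intro fr hfr
    rw [List.mem_singleton] at hfr
    subst hfr
    exact ⟨le_rfl, by simp, by simp, le_rfl, by simp⟩
  have h1 := sz_inv (inv_fold ((w a).take k) 0 _ hinit)
  have hlen : 0 + ((w a).take k).length = k := by
    rw [List.length_take]; omega
  rw [hlen] at h1
  have h2 : k ≤ qw.eval (sz a) := by
    have := length_lt_sz (w a)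
    have := hqw a
    omega
  have h3 : (x a).length ≤ qx.eval (sz a) := by
    have := length_lt_sz (x a)
    have := hqx a
    omega
  have h4 := hqR a
  have h5 := hqt a
  refine h1.trans ?_
  simp only [Polynomial.eval_add, Polynomial.eval_mul, Polynomial.eval_C, Polynomial.eval_one]
  gcongr

end Pool.Agent.W578.GP
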